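import Pool.Agent.L5helper52.LL.Cnt
import Pool.Agent.L5helper52.WK.Aw
import Pool.Agent.R351.GF.LogQ

/-!
# Measures of independence and simultaneously Liouville fields
-/

set_option autoImplicit false

open Module

namespace Pool.Agent.L5helper52.WK

open Pool.Agent.L5helper52.LL (SL)

/-- numbers with a measure of linear independence of finite type are linearly independent over every
simultaneously Liouville field -/
theorem li_of_measure {K : Subfield ℂ} (hK : SL K) {ι : Type*} [Fintype ι] (y : ι → ℂ) (c : ℝ) (hc : 0 < c)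
    (κ : ℕ) (hm : ∀ a : ι → ℤ, a ≠ 0 → ∀ A : ℝ, 1 ≤ A → (∀ i, |(a i : ℝ)| ≤ A) →
      c ≤ A ^ κ * ‖∑ i, (a i : ℂ) * y i‖) (b : ι → ℂ) (hb : ∀ i, b i ∈ K) (h0 : ∑ i, b i * y i = 0) : b = 0 := by
  classical
  by_contra hne
  obtain ⟨i₀, hi₀⟩ : ∃ i, b i ≠ 0 := by
    by_contra h
    push Not at h
    exact hne (funext h)
  have hc0 : 0 < ‖b i₀‖ := norm_pos_iff.2 hi₀
  obtain ⟨M, hM⟩ : ∃ M : ℝ, M = ∑ i, ‖y i‖ := ⟨_, rfl⟩
  have hM0 : 0 ≤ M := by rw [hM]; exact Finset.sum_nonneg fun _ _ => norm_nonneg _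
  obtain ⟨B, hB⟩ : ∃ B : ℝ, B = ∑ i, ‖b i‖ := ⟨_, rfl⟩
  have hBi : ∀ i, ‖b i‖ ≤ B := fun i => by
    rw [hB]
    exact Finset.single_le_sum (f := fun i => ‖b i‖) (fun _ _ => norm_nonneg _) (Finset.mem_univ i)
  have hB0 : 0 ≤ B := hc0.le.trans (hBi i₀)
  obtain ⟨q, hq0, hq1, hq⟩ := hK (Finset.univ.image b) (by
    intro x hx
    obtain ⟨i, -, rfl⟩ := Finset.mem_image.1 hx
    exact hb i) (2 * κ + 1) (⌈B⌉₊ + ⌈1 / ‖b i₀‖⌉₊ + ⌈M / c⌉₊ + 3)
  choose p hp using fun i => hq (b i) (Finset.mem_image_of_mem b (Finset.mem_univ i))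
  have hqr : (⌈B⌉₊ : ℝ) + ⌈1 / ‖b i₀‖⌉₊ + ⌈M / c⌉₊ + 3 ≤ q := by exact_mod_cast hq0
  have a1 : B ≤ ⌈B⌉₊ := Nat.le_ceil _
  have a2 : 1 / ‖b i₀‖ ≤ ⌈1 / ‖b i₀‖⌉₊ := Nat.le_ceil _
  have a3 : M / c ≤ ⌈M / c⌉₊ := Nat.le_ceil _
  have b1 : (0 : ℝ) ≤ ⌈B⌉₊ := Nat.cast_nonneg _
  have b2 : (0 : ℝ) ≤ ⌈1 / ‖b i₀‖⌉₊ := Nat.cast_nonneg _
  have b3 : (0 : ℝ) ≤ ⌈M / c⌉₊ := Nat.cast_nonneg _
  have hqr1 : (1 : ℝ) ≤ q := by linarith
  have hqp : (0 : ℝ) < q := by linarith
  have hsmall : 1 / (q : ℝ) ^ (2 * κ + 1) ≤ 1 := by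
    rw [div_le_one (by positivity)]
    exact one_le_pow₀ hqr1
  have hpne : p ≠ 0 := by
    intro h
    have h1 := hp i₀
    rw [h, Pi.zero_apply, Int.cast_zero, sub_zero, norm_mul, Complex.norm_natCast] at h1
    have h2 : (q : ℝ) * ‖b i₀‖ < 1 := h1.trans_le hsmall
    have h3 : 1 / ‖b i₀‖ < q := by linarith
    rw [div_lt_iff₀ hc0] at h3
    linarith
  have hpA : ∀ i, |(p i : ℝ)| ≤ (q : ℝ) ^ 2 := by
    intro i
    have h1 : ‖((p i : ℤ) : ℂ)‖ ≤ ‖(q : ℂ) * b i‖ + ‖(q : ℂ) * b i - p i‖ := by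
      have h2 := norm_sub_le ((q : ℂ) * b i) ((q : ℂ) * b i - p i)
      rwa [sub_sub_cancel] at h2
    rw [norm_mul, Complex.norm_natCast, Complex.norm_intCast] at h1
    have h2 := (hp i).trans_le hsmall
    have h3 := hBi i
    nlinarith
  have hkey := hm p hpne ((q : ℝ) ^ 2) (one_le_pow₀ hqr1) hpA
  have hsum : ‖∑ i, (p i : ℂ) * y i‖ ≤ 1 / (q : ℝ) ^ (2 * κ + 1) * M := by
    have e : ∑ i, (p i : ℂ) * y i = -∑ i, ((q : ℂ) * b i - p i) * y i := by
      simp only [sub_mul, Finset.sum_sub_distrib, mul_assoc]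
      rw [← Finset.mul_sum, h0]
      ring
    rw [e, norm_neg, hM, Finset.mul_sum]
    refine (norm_sum_le _ _).trans (Finset.sum_le_sum fun i _ => ?_)
    rw [norm_mul]
    exact mul_le_mul_of_nonneg_right (hp i).le (norm_nonneg _)
  have h4 : c ≤ ((q : ℝ) ^ 2) ^ κ * (1 / (q : ℝ) ^ (2 * κ + 1) * M) :=
    hkey.trans (mul_le_mul_of_nonneg_left hsum (by positivity))
  have h5 : ((q : ℝ) ^ 2) ^ κ * (1 / (q : ℝ) ^ (2 * κ + 1) * M) = M / q := by
    rw [← pow_mul, pow_succ]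
    field_simp
  rw [h5, le_div_iff₀ hqp] at h4
  have h6 : M / c < q := by linarith
  rw [div_lt_iff₀ hc] at h6
  linarith

/-- numbers with a measure of algebraic independence of finite type in degree `Δ` have no relation of degree
`Δ` over any simultaneously Liouville field -/
theorem noRel_of_measure {K : Subfield ℂ} (hK : SL K) {κ : Type*} [Fintype κ] (x : κ → ℂ) (Δ : ℕ) (c : ℝ)
    (hc : 0 < c) (e : ℕ) (hm : ∀ P : MvPolynomial κ ℤ, P ≠ 0 → P.totalDegree ≤ Δ → ∀ A : ℝ, 1 ≤ A →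
      (∀ s, |((P.coeff s : ℤ) : ℝ)| ≤ A) → c ≤ A ^ e * ‖MvPolynomial.aeval x P‖) : NoRel K x Δ := by
  classical
  intro R hRd hR
  have h1 := li_of_measure hK (ι := {s // s ∈ R.support}) (fun s => ∏ i, x i ^ (s.1 i)) c hc e (by
    intro a ha A hA hAa
    set P : MvPolynomial κ ℤ := ∑ s : {s // s ∈ R.support}, MvPolynomial.monomial s.1 (a s) with hP
    have hPc : ∀ s : {s // s ∈ R.support}, P.coeff s.1 = a s := by
      intro s
      rw [hP, MvPolynomial.coeff_sum, Finset.sum_eq_single s]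
      · rw [MvPolynomial.coeff_monomial, if_pos rfl]
      · intro s' _ hs'
        rw [MvPolynomial.coeff_monomial, if_neg]
        exact fun h => hs' (Subtype.ext h)
      · exact fun h => absurd (Finset.mem_univ _) h
    have hPc' : ∀ s, s ∉ R.support → P.coeff s = 0 := by
      intro s hs
      rw [hP, MvPolynomial.coeff_sum]
      refine Finset.sum_eq_zero fun s' _ => ?_
      rw [MvPolynomial.coeff_monomial, if_neg]
      rintro rfl
      exact hs s'.2
    have h2 := hm P (by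
      intro h
      apply ha
      funext s
      rw [← hPc s, h, MvPolynomial.coeff_zero]
      rfl) (by
      refine le_trans ?_ hRd
      rw [MvPolynomial.totalDegree, Finset.sup_le_iff]
      intro s hs
      refine MvPolynomial.le_totalDegree ?_
      by_contra h
      rw [MvPolynomial.mem_support_iff, hPc' s h] at hs
      exact hs rfl) A hA (by
      intro s
      by_cases hs : s ∈ R.support
      · rw [hPc ⟨s, hs⟩]
        exact hAa _
      · rw [hPc' s hs, Int.cast_zero, abs_zero]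
        linarith)
    refine h2.trans (le_of_eq ?_)
    congr 2
    rw [hP, map_sum]
    refine Finset.sum_congr rfl fun s _ => ?_
    rw [MvPolynomial.aeval_monomial, Finsupp.prod_fintype _ _ (fun _ => pow_zero _)]
    simp) (fun s => ((R.coeff s.1 : K) : ℂ)) (fun s => (R.coeff s.1).2) (by
    have e : MvPolynomial.aeval x R = ∑ s ∈ R.support, ((R.coeff s : K) : ℂ) * ∏ i, x i ^ s i := by
      conv_lhs => rw [R.as_sum, map_sum]
      refine Finset.sum_congr rfl fun s _ => ?_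
      rw [MvPolynomial.aeval_monomial, Finsupp.prod_fintype _ _ (fun _ => pow_zero _)]
      rfl
    rw [← hR, e]
    exact Finset.sum_coe_sort R.support (fun s => ((R.coeff s : K) : ℂ) * ∏ i, x i ^ s i))
  by_contra hne
  obtain ⟨s, hs⟩ := MvPolynomial.support_nonempty.2 hne
  have h2 := congrFun h1 ⟨s, hs⟩
  exact MvPolynomial.mem_support_iff.1 hs (Subtype.ext h2)

/-- the logarithms of `1 - g / t` -/
noncomputable def vlog (t g : ℕ) (_ : Unit) : ℂ := ((Real.log (1 - g / t) : ℝ) : ℂ)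

theorem inp_log : Inp {K | SL K} vlog := by
  intro N Δ
  obtain ⟨E, hE⟩ := Pool.Agent.R351.GF.log_quant N Δ
  refine ⟨E + 1, fun H t ht K hK g hg hgH => ?_⟩
  have ht1 : (H + 2) ^ E ≤ t := (Nat.pow_le_pow_right (by omega) (Nat.le_succ E)).trans ht
  have ht0 : 0 < t := lt_of_lt_of_le (Nat.pow_pos (by omega)) ht
  have htR : (0 : ℝ) < t := by exact_mod_cast ht0
  have ht1R : (1 : ℝ) ≤ t := by exact_mod_cast ht0
  have hq := hE H t ht1 (fun i => -(g i : ℤ)) (fun i j h => hg (by simpa using h))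
    (fun i => ⟨by have := (hgH i).1; omega, by
      rw [abs_neg, Nat.abs_cast]
      exact_mod_cast (hgH i).2⟩)
  have h1 : NoRel K (fun i : Fin N => ((Real.log (1 - g i / t) : ℝ) : ℂ)) Δ := by
    refine noRel_of_measure hK _ Δ (1 / (t : ℝ) ^ E) (by positivity) E fun P hP0 hPd A hA hPA => ?_
    have h2 := hq P hP0 hPd A hA hPA
    have h3 : (fun i : Fin N => ((Real.log (1 - g i / t) : ℝ) : ℂ)) =
        fun i => algebraMap ℝ ℂ (Real.log (1 + ((-(g i : ℤ) : ℤ) : ℝ) / t)) := by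
      funext i
      push_cast
      rw [neg_div, ← sub_eq_add_neg]
      rfl
    have h6 : MvPolynomial.aeval (fun i => algebraMap ℝ ℂ (Real.log (1 + ((-(g i : ℤ) : ℤ) : ℝ) / t))) P =
        algebraMap ℝ ℂ (MvPolynomial.aeval (fun i => Real.log (1 + ((-(g i : ℤ) : ℤ) : ℝ) / t)) P) :=
      MvPolynomial.aeval_algebraMap_apply ℂ _ P
    rw [h3, h6]
    have h5 : ‖algebraMap ℝ ℂ (MvPolynomial.aeval (fun i => Real.log (1 + ((-(g i : ℤ) : ℤ) : ℝ) / t)) P)‖ =
        |MvPolynomial.aeval (fun i => Real.log (1 + ((-(g i : ℤ) : ℤ) : ℝ) / t)) P| := by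
      rw [← Real.norm_eq_abs]
      exact Complex.norm_real _
    rw [h5, div_le_iff₀ (by positivity)]
    refine h2.trans (le_of_eq ?_)
    rw [mul_pow]
    ring
  intro P hPd hP0
  have h2 := h1 (MvPolynomial.rename (fun x : Fin N × Unit => x.1) P)
    ((MvPolynomial.totalDegree_rename_le _ _).trans hPd) (by
      rw [MvPolynomial.aeval_rename, ← hP0]
      rfl)
  have hinj : Function.Injective (fun x : Fin N × Unit => x.1) := fun x y h => Prod.ext h (Subsingleton.elim _ _)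
  exact MvPolynomial.rename_injective _ hinj (h2.trans (map_zero _).symm)

end Pool.Agent.L5helper52.WK
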