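import Mathlib
import Pool.Agent.R351.GF.Core
import Pool.Agent.Y113.G.Final
import Pool.Agent.Y141.GF.Shid
import Pool.Agent.L5helper52.WK.Meas

/-!
# G-systems: measures of linear independence for the values

For all G-systems (no condition on the differential equation) the values at `1 / t`, `t` large, have a measure of linear
independence of finite type; the constant is not explicit. It follows that the values are linearly independent over all
simultaneously Liouville fields. The proof combines `Pool.Agent.Y113.G_fin` and `Pool.Agent.R351.GF.G_quant`.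
-/

set_option autoImplicit false

open PowerSeries

namespace Pool.Agent.L5helper52.WK

open Pool.Agent.Y113 Pool.Agent.R351.GF

theorem aux_pow2 (X Y A : ℝ) (κ n : ℕ) : ((X * A ^ 2) ^ κ * Y) ^ n = (X ^ κ * Y) ^ n * A ^ (2 * κ * n) := by
  rw [mul_pow X, ← pow_mul A, mul_right_comm, mul_pow _ (A ^ (2 * κ)), ← pow_mul A]

/-- **The measure.** -/
theorem G_meas (h_sh : T_shid) (h_loc : T_loc) (N q : ℕ) : ∃ E : ℕ, ∀ (C : ℝ) (T : Polynomial ℤ)
    (y : Fin N → ℚ⟦X⟧) (i₀ : Fin N) (t : ℕ), GSys q C T y → y i₀ = 1 → LinearIndependent (Polynomial ℚ) y →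
    (2 * C) ^ E ≤ (t : ℝ) → Polynomial.aeval (1 / (t : ℝ)) T ≠ 0 → ∃ (c : ℝ) (κ : ℕ), 0 < c ∧
    ∀ a : Fin N → ℤ, a ≠ 0 → ∀ A : ℝ, 1 ≤ A → (∀ i, |(a i : ℝ)| ≤ A) →
      c ≤ A ^ κ * |∑ i, (a i : ℝ) * ev t (y i)| := by
  set L : ℕ := 2 * q * N + 4 with hL
  set a1 : ℕ := (L + 2 * (N * L)) * (N * L) with ha1
  set a0 : ℕ := (N + 1) * (N * L) with ha0
  set b1 : ℕ := 2 * (2 * q + 3) + 2 * L + a1 with hb1
  set b0 : ℕ := N + 1 + a0 with hb0
  set c1 : ℕ := 2 + 2 * (q + 1) + L + a1 + 2 * (N * L) with hc1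
  set c0 : ℕ := N + 3 + a0 with hc0
  set e1 : ℕ := b1 * (N - 2) + c1 with he1
  set e0 : ℕ := b0 * (N - 2) + c0 with he0
  set K₀ : ℕ := 2 * (N * N.factorial) with hK₀
  set κ : ℕ := L + 2 * q + b1 with hκ
  refine ⟨2 * e1 + e0 + 3, ?_⟩
  intro C T y i₀ t hG h1 hLI ht hT
  have hC := hG.one_le
  have hD2 : 2 ≤ 2 * C := by linarith
  have hD1 : 1 ≤ 2 * C := by linarith
  have hNpos : 0 < N := i₀.pos
  have ht8 : 8 * C ≤ (t : ℝ) := by
    have h2 : (2 * C) ^ 3 ≤ (2 * C) ^ (2 * e1 + e0 + 3) := pow_le_pow_right₀ hD1 (by omega)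
    have h3 : 8 * C ≤ (2 * C) ^ 3 := by
      have : 1 ≤ C ^ 2 := one_le_pow₀ hC
      nlinarith
    linarith
  have ht1 : (1 : ℝ) ≤ t := by linarith
  -- the case N = 1
  rcases Nat.lt_or_ge N 2 with hN | hN
  · have hN1 : N = 1 := by omega
    refine ⟨1, 0, one_pos, fun a hane A hA1 hAi => ?_⟩
    have h2 : (1 : ℝ) ≤ |∑ i, (a i : ℝ) * ev t (y i)| := by
      have hi : ∀ j : Fin N, j = i₀ := fun j => by
        apply Fin.ext
        have := j.2
        have := i₀.2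
        omega
      rw [Finset.sum_eq_single i₀ (fun j _ hj => absurd (hi j) hj)
        (fun h => absurd (Finset.mem_univ _) h), h1, ev_one, mul_one]
      have h3 : a i₀ ≠ 0 := by
        intro h
        apply hane
        funext j
        rw [hi j, h]
        rfl
      exact_mod_cast Int.one_le_abs h3
    rw [pow_zero, one_mul]
    exact h2
  have htpos : (0 : ℝ) < t := by linarith
  have htnat : 0 < t := by exact_mod_cast htpos
  -- the differential equation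
  obtain ⟨g, hg0, hgC, hgG⟩ := hG.der 1
  obtain ⟨G, hGd, hGc, hGe⟩ := hgG 1 le_rfl
  set Tq : Polynomial ℚ := T.map (Int.castRingHom ℚ) with hTq
  have hode : ∀ i, (Tq : ℚ⟦X⟧) * d⁄dX ℚ (y i) =
      ∑ j, ((Polynomial.C ((g : ℚ)⁻¹) * (G i j).map (Int.castRingHom ℚ) : Polynomial ℚ) : ℚ⟦X⟧) * y j := by
    intro i
    have h2 := hGe i
    have h3 : hd 1 (y i) = d⁄dX ℚ (y i) := by
      have := fac_hd 1 (y i)
      simpa using this
    rw [h3, pow_one] at h2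
    have h4 : (g : ℚ⟦X⟧) = PowerSeries.C (g : ℚ) := by simp
    have h5 : PowerSeries.C ((g : ℚ)⁻¹) * ((g : ℚ⟦X⟧) * (ps T * d⁄dX ℚ (y i))) = ps T * d⁄dX ℚ (y i) := by
      rw [h4, ← mul_assoc, ← map_mul, inv_mul_cancel₀ (by exact_mod_cast hg0.ne'), map_one, one_mul]
    have h6 : (Tq : ℚ⟦X⟧) = ps T := rfl
    rw [h6, ← h5, h2, Finset.mul_sum]
    refine Finset.sum_congr rfl fun j _ => ?_
    rw [Polynomial.coe_mul, Polynomial.coe_C, mul_assoc]
    rfl
  have hξ : Tq.eval (1 / (t : ℚ)) ≠ 0 := by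
    intro h
    apply hT
    rw [aeval_map_eval, ← hTq, h]
    simp
  have hξ0 : (1 / (t : ℚ)) ≠ 0 := by
    apply one_div_ne_zero
    exact_mod_cast htnat.ne'
  obtain ⟨c₁, hc₁⟩ := rank_point h_sh h_loc hode hLI i₀ h1 (1 / (t : ℚ)) hξ0 hξ
  have hK₀0 : 0 < K₀ := by
    rw [hK₀]
    have := Nat.factorial_pos N
    positivity
  set Cc : ℝ := 2 * N.factorial * (((K₀ : ℝ) ^ 2 * (t : ℝ) ^ (c₁ + 4)) ^ κ * (t : ℝ) ^ b0) ^ (N - 1) with hCc
  have hCc0 : 0 < Cc := by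
    have : (0 : ℝ) < N.factorial := by exact_mod_cast Nat.factorial_pos N
    positivity
  refine ⟨1 / Cc, 2 * κ * (N - 1), by positivity, fun a hane A hA1 hAi => ?_⟩
  have hA0 : 0 ≤ A := zero_le_one.trans hA1
  set ε : ℝ := |∑ i, (a i : ℝ) * ev t (y i)| with hε
  have hε0 : 0 ≤ ε := abs_nonneg _
  have hcore := fun ν hν => core' hG i₀ h1 t ht8 c₁ hc₁ a hane ε le_rfl A hAi L ν hL hν
  -- the simplified inequality
  have hkey : ∀ ν : ℕ, c₁ < ν → 1 ≤ N * (N.factorial * A) * (2 * C) ^ (e1 * ν + e0) * (1 / (t : ℝ)) ^ ν +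
      N.factorial * ((t : ℝ) ^ ((L + 2 * q) * ν) * (2 * C) ^ (b1 * ν + b0)) ^ (N - 1) * ε := by
    intro ν hν
    have h := hcore ν hν
    have hNL : 4 ≤ N * L := le_trans (by omega) (Nat.le_mul_of_pos_left L hNpos)
    have hm₀ : (N * L - 1) * ν ≤ N * L * ν := Nat.mul_le_mul_right _ (Nat.sub_le _ _)
    have hA₀ := A0_bound hC N L ν ((N * L - 1) * ν) hm₀
    rw [← ha1, ← ha0] at hA₀
    set A₀ : ℝ := ((N * (L * ν + 1) : ℕ) * C ^ (2 * ((N * L - 1) * ν) + 1)) ^ (N * L) with hA₀d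
    have hA₀0 : 0 ≤ A₀ := by positivity
    set p : ℕ := (L + 2 * q) * ν with hp
    have hpe : L * ν + q * (2 * ν) = p := by rw [hp]; ring
    have hX : (t : ℝ) ^ (L * ν + q * (2 * ν)) * ((2 * C) ^ ((2 * q + 3) * (2 * ν) + 2 * (L * ν) + N + 1) * A₀) ≤
        (t : ℝ) ^ p * (2 * C) ^ (b1 * ν + b0) := by
      rw [hpe]
      refine mul_le_mul_of_nonneg_left ?_ (by positivity)
      calc (2 * C) ^ ((2 * q + 3) * (2 * ν) + 2 * (L * ν) + N + 1) * A₀
          ≤ (2 * C) ^ ((2 * q + 3) * (2 * ν) + 2 * (L * ν) + N + 1) * (2 * C) ^ (a1 * ν + a0) :=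
            mul_le_mul_of_nonneg_left hA₀ (by positivity)
        _ = (2 * C) ^ (b1 * ν + b0) := by
            rw [← pow_add]; congr 1; rw [hb1, hb0]; ring
    have hm₀e : (N * L - 1) * ν - 2 * ν = p * (N - 1) + (1 + 2 * q) * ν := by
      have h2 : (N * L - 1) = (L + 2 * q) * (N - 1) + (1 + 2 * q) + 2 := by
        obtain ⟨M, rfl⟩ : ∃ M, N = M + 1 := ⟨N - 1, by omega⟩
        rw [Nat.add_sub_cancel]
        have : (M + 1) * L = M * L + L := by ring
        rw [this]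
        have h3 : L = 2 * q * M + 2 * q + 4 := by rw [hL]; ring
        have h4 : (L + 2 * q) * M = M * L + 2 * q * M := by ring
        rw [h4]
        omega
      rw [h2, hp]
      have h5 : ((L + 2 * q) * (N - 1) + (1 + 2 * q) + 2) * ν = (L + 2 * q) * ν * (N - 1) + (1 + 2 * q) * ν + 2 * ν := by
        ring
      rw [h5]
      omega
    have hLLb : (t : ℝ) ^ (L * ν + q * (2 * ν)) * ((2 * C) ^ (2 * ν + 1) * ((2 * C) ^ ((q + 1) * (2 * ν)) *
        (2 * ((N * ((L * ν : ℕ) + 1) * A₀ * C) *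
          (4 * C) ^ ((N * L - 1) * ν) * (1 / (t : ℝ)) ^ ((N * L - 1) * ν - 2 * ν))))) ≤
        (t : ℝ) ^ p * ((2 * C) ^ (c1 * ν + c0) * (1 / (t : ℝ)) ^ ((N * L - 1) * ν - 2 * ν)) := by
      rw [hpe]
      refine mul_le_mul_of_nonneg_left ?_ (by positivity)
      have h2 : (N : ℝ) * (((L * ν : ℕ) : ℝ) + 1) ≤ (2 * C) ^ (N + L * ν) := by
        rw [pow_add]
        have h2 := nat_le_pow hD2 N
        have h3 := nat_le_pow hD2 (L * ν)
        exact mul_le_mul (by linarith) h3 (by positivity) (by positivity)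
      have h3 : (4 * C) ^ ((N * L - 1) * ν) ≤ (2 * C) ^ (2 * (N * L * ν)) := by
        calc (4 * C) ^ ((N * L - 1) * ν) ≤ ((2 * C) ^ 2) ^ ((N * L - 1) * ν) := by
              apply pow_le_pow_left₀ (by positivity)
              nlinarith
          _ = (2 * C) ^ (2 * ((N * L - 1) * ν)) := by rw [← pow_mul]
          _ ≤ _ := pow_le_pow_right₀ hD1 (by omega)
      have h4 : N * (((L * ν : ℕ) : ℝ) + 1) * A₀ * C * (4 * C) ^ ((N * L - 1) * ν) ≤
          (2 * C) ^ (N + L * ν) * (2 * C) ^ (a1 * ν + a0) * (2 * C) ^ 1 * (2 * C) ^ (2 * (N * L * ν)) := by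
        refine mul_le_mul (mul_le_mul (mul_le_mul h2 hA₀ hA₀0 (by positivity)) (by rw [pow_one]; linarith)
          (by positivity) (by positivity)) h3 (by positivity) (by positivity)
      calc (2 * C) ^ (2 * ν + 1) * ((2 * C) ^ ((q + 1) * (2 * ν)) *
            (2 * ((N * (((L * ν : ℕ) : ℝ) + 1) * A₀ * C) * (4 * C) ^ ((N * L - 1) * ν) *
              (1 / (t : ℝ)) ^ ((N * L - 1) * ν - 2 * ν))))
          ≤ (2 * C) ^ (2 * ν + 1) * ((2 * C) ^ ((q + 1) * (2 * ν)) *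
            ((2 * C) ^ 1 * (((2 * C) ^ (N + L * ν) * (2 * C) ^ (a1 * ν + a0) * (2 * C) ^ 1 * (2 * C) ^ (2 * (N * L * ν))) *
              (1 / (t : ℝ)) ^ ((N * L - 1) * ν - 2 * ν)))) := by
            refine mul_le_mul_of_nonneg_left (mul_le_mul_of_nonneg_left ?_ (by positivity)) (by positivity)
            refine mul_le_mul (by rw [pow_one]; exact hD2) (mul_le_mul_of_nonneg_right h4 (by positivity)) (by positivity)
              (by positivity)
        _ = (2 * C) ^ (c1 * ν + c0) * (1 / (t : ℝ)) ^ ((N * L - 1) * ν - 2 * ν) := by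
            have : c1 * ν + c0 = (2 * ν + 1) + ((q + 1) * (2 * ν) + (1 + ((N + L * ν) + (a1 * ν + a0) + 1 +
              2 * (N * L * ν)))) := by
              rw [hc1, hc0]; ring
            rw [this, pow_add, pow_add, pow_add, pow_add, pow_add, pow_add]
            ring
    -- combine
    have hcomb : (N : ℝ) * (N.factorial * (A * ((t : ℝ) ^ p * (2 * C) ^ (b1 * ν + b0)) ^ (N - 2)) *
        ((t : ℝ) ^ p * ((2 * C) ^ (c1 * ν + c0) * (1 / (t : ℝ)) ^ ((N * L - 1) * ν - 2 * ν)))) ≤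
        N * (N.factorial * A) * (2 * C) ^ (e1 * ν + e0) * (1 / (t : ℝ)) ^ ν := by
      rw [hm₀e, mul_pow, ← pow_mul, ← pow_mul]
      have h2 : (t : ℝ) ^ (p * (N - 2)) * (t : ℝ) ^ p * (1 / (t : ℝ)) ^ (p * (N - 1) + (1 + 2 * q) * ν) ≤
          (1 / (t : ℝ)) ^ ν := by
        have h3 : p * (N - 1) = p * (N - 2) + p := by
          obtain ⟨M, rfl⟩ : ∃ M, N = M + 2 := ⟨N - 2, by omega⟩
          simp only [Nat.add_sub_cancel]
          rw [show M + 2 - 1 = M + 1 by omega]; ring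
        rw [h3, ← pow_add, pow_add (1 / (t : ℝ)), ← mul_assoc, ← mul_pow, mul_one_div_cancel htpos.ne', one_pow, one_mul]
        apply pow_le_pow_of_le_one (by positivity)
        · rw [div_le_one htpos]; linarith
        · calc ν = 1 * ν := (one_mul ν).symm
            _ ≤ (1 + 2 * q) * ν := Nat.mul_le_mul_right _ (by omega)
      have h4 : (N : ℝ) * (N.factorial * (A * ((t : ℝ) ^ (p * (N - 2)) * (2 * C) ^ ((b1 * ν + b0) * (N - 2)))) *
          ((t : ℝ) ^ p * ((2 * C) ^ (c1 * ν + c0) * (1 / (t : ℝ)) ^ (p * (N - 1) + (1 + 2 * q) * ν)))) =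
          N * (N.factorial * A) * (2 * C) ^ (e1 * ν + e0) *
          ((t : ℝ) ^ (p * (N - 2)) * (t : ℝ) ^ p * (1 / (t : ℝ)) ^ (p * (N - 1) + (1 + 2 * q) * ν)) := by
        have : e1 * ν + e0 = (b1 * ν + b0) * (N - 2) + (c1 * ν + c0) := by rw [he1, he0]; ring
        rw [this, pow_add (2 * C)]
        ring
      rw [h4]
      exact mul_le_mul_of_nonneg_left h2 (by positivity)
    refine h.trans (add_le_add (le_trans ?_ hcomb) ?_)
    · refine mul_le_mul_of_nonneg_left ?_ (by positivity)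
      refine mul_le_mul ?_ hLLb (by positivity) (by positivity)
      refine mul_le_mul_of_nonneg_left ?_ (by positivity)
      refine mul_le_mul_of_nonneg_left ?_ hA0
      exact pow_le_pow_left₀ (by positivity) hX _
    · refine mul_le_mul_of_nonneg_right ?_ hε0
      refine mul_le_mul_of_nonneg_left ?_ (by positivity)
      exact pow_le_pow_left₀ (by positivity) hX _
  -- the choice of `ν`
  set Mr : ℝ := ((K₀ : ℝ) * A) ^ 2 with hMr
  have hK₀1 : (1 : ℝ) ≤ K₀ := by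
    rw [hK₀]
    have h2 : 1 ≤ N * N.factorial := Nat.mul_pos hNpos (Nat.factorial_pos N)
    have h3 : 1 ≤ 2 * (N * N.factorial) := by omega
    exact_mod_cast h3
  have hMr1 : 1 ≤ Mr := one_le_pow₀ (one_le_mul_of_one_le_of_one_le hK₀1 hA1)
  have ht2 : (2 : ℝ) ≤ t := by linarith
  obtain ⟨n, hn1, hn2⟩ := exists_nat_pow_near hMr1 (show (1 : ℝ) < t by linarith)
  set ν : ℕ := n + c₁ + 4 with hν
  have hkν := hkey ν (by omega)
  have hDt : ∀ e, e ≤ 2 * e1 + e0 + 3 → (2 * C) ^ e ≤ (t : ℝ) := fun e he =>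
    (pow_le_pow_right₀ hD1 he).trans ht
  have hhalf : N * (N.factorial * A) * (2 * C) ^ (e1 * ν + e0) * (1 / (t : ℝ)) ^ ν ≤ 1 / 2 := by
    have h2 : ((K₀ : ℝ) * A * (2 * C) ^ (e1 * ν + e0)) ^ 2 ≤ ((t : ℝ) ^ ν) ^ 2 := by
      have h3 : ((2 * C) ^ e0) ^ 2 ≤ (t : ℝ) ^ 2 := pow_le_pow_left₀ (by positivity) (hDt _ (by omega)) _
      have h4 : ((2 * C) ^ (2 * e1)) ^ ν ≤ (t : ℝ) ^ ν := pow_le_pow_left₀ (by positivity) (hDt _ (by omega)) _
      calc ((K₀ : ℝ) * A * (2 * C) ^ (e1 * ν + e0)) ^ 2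
          = Mr * ((2 * C) ^ e0) ^ 2 * ((2 * C) ^ (2 * e1)) ^ ν := by
            have : ((2 * C) ^ (e1 * ν)) ^ 2 = ((2 * C) ^ (2 * e1)) ^ ν := by
              rw [← pow_mul, ← pow_mul]; congr 1; ring
            rw [hMr, ← this, pow_add]; ring
        _ ≤ (t : ℝ) ^ (n + 1) * (t : ℝ) ^ 2 * (t : ℝ) ^ ν :=
            mul_le_mul (mul_le_mul hn2.le h3 (by positivity) (by positivity)) h4 (by positivity)
              (by positivity)
        _ = (t : ℝ) ^ (n + 3 + ν) := by rw [← pow_add, ← pow_add]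
        _ ≤ (t : ℝ) ^ (ν * 2) := pow_le_pow_right₀ ht1 (by omega)
        _ = ((t : ℝ) ^ ν) ^ 2 := by rw [pow_mul]
    have h5 : (K₀ : ℝ) * A * (2 * C) ^ (e1 * ν + e0) ≤ (t : ℝ) ^ ν :=
      (pow_le_pow_iff_left₀ (by positivity) (by positivity) (by norm_num)).1 h2
    rw [one_div_pow, mul_one_div, div_le_iff₀ (pow_pos htpos _)]
    have h6 : (K₀ : ℝ) = 2 * (N * N.factorial) := by rw [hK₀]; push_cast; ring
    rw [h6] at h5
    linarith
  have h2 : (1 : ℝ) ≤ 2 * N.factorial * ((t : ℝ) ^ ((L + 2 * q) * ν) * (2 * C) ^ (b1 * ν + b0)) ^ (N - 1) * ε := by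
    linarith
  have hD : 2 * C ≤ (t : ℝ) := by linarith
  have hX1 : (t : ℝ) ^ ((L + 2 * q) * ν) * (2 * C) ^ (b1 * ν + b0) ≤
      ((K₀ : ℝ) ^ 2 * (t : ℝ) ^ (c₁ + 4) * A ^ 2) ^ κ * (t : ℝ) ^ b0 := by
    have h3 : (t : ℝ) ^ ν ≤ (K₀ : ℝ) ^ 2 * (t : ℝ) ^ (c₁ + 4) * A ^ 2 := by
      calc (t : ℝ) ^ ν = (t : ℝ) ^ n * (t : ℝ) ^ (c₁ + 4) := by rw [← pow_add]; rfl
        _ ≤ Mr * (t : ℝ) ^ (c₁ + 4) := mul_le_mul_of_nonneg_right hn1 (by positivity)
        _ = _ := by rw [hMr]; ring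
    calc (t : ℝ) ^ ((L + 2 * q) * ν) * (2 * C) ^ (b1 * ν + b0)
        ≤ (t : ℝ) ^ ((L + 2 * q) * ν) * (t : ℝ) ^ (b1 * ν + b0) := by gcongr
      _ = ((t : ℝ) ^ ν) ^ κ * (t : ℝ) ^ b0 := by
          rw [← pow_add, ← pow_mul, ← pow_add]
          congr 1
          rw [hκ]; ring
      _ ≤ _ := by gcongr
  have hX2 : 2 * (N.factorial : ℝ) * ((t : ℝ) ^ ((L + 2 * q) * ν) * (2 * C) ^ (b1 * ν + b0)) ^ (N - 1) ≤
      Cc * A ^ (2 * κ * (N - 1)) := by
    calc 2 * (N.factorial : ℝ) * ((t : ℝ) ^ ((L + 2 * q) * ν) * (2 * C) ^ (b1 * ν + b0)) ^ (N - 1)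
        ≤ 2 * (N.factorial : ℝ) * (((K₀ : ℝ) ^ 2 * (t : ℝ) ^ (c₁ + 4) * A ^ 2) ^ κ * (t : ℝ) ^ b0) ^ (N - 1) := by
          refine mul_le_mul_of_nonneg_left (pow_le_pow_left₀ (by positivity) hX1 _) (by positivity)
      _ = _ := by
          rw [hCc, aux_pow2]
          ring
  rw [div_le_iff₀ hCc0]
  calc (1 : ℝ) ≤ 2 * N.factorial * ((t : ℝ) ^ ((L + 2 * q) * ν) * (2 * C) ^ (b1 * ν + b0)) ^ (N - 1) * ε := h2
    _ ≤ Cc * A ^ (2 * κ * (N - 1)) * ε := mul_le_mul_of_nonneg_right hX2 hε0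
    _ = _ := by ring

/-- **G-systems over simultaneously Liouville fields.** -/
theorem G_SL (N q : ℕ) : ∃ E : ℕ, ∀ (ι : Type) [Fintype ι] (C : ℝ) (T : Polynomial ℤ) (y : ι → ℚ⟦X⟧) (i₀ : ι)
    (t : ℕ), Fintype.card ι ≤ N → GSys q C T y → y i₀ = 1 → LinearIndependent (Polynomial ℚ) y →
    (2 * C) ^ E ≤ (t : ℝ) → Polynomial.aeval (1 / (t : ℝ)) T ≠ 0 → ∀ K : Subfield ℂ, Pool.Agent.L5helper52.LL.SL K →
    ∀ b : ι → ℂ, (∀ i, b i ∈ K) → ∑ i, b i * ((ev t (y i) : ℝ) : ℂ) = 0 → b = 0 := by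
  choose E hE using fun N' => G_meas Pool.Agent.Y141.GF.t_shid Pool.Agent.Y141.GF.t_loc N' q
  refine ⟨∑ N' ∈ Finset.range (N + 1), E N', ?_⟩
  intro ι _ C T y i₀ t hcard hG h1 hLI ht hT K hK b hb h0
  have hC := hG.one_le
  set n := Fintype.card ι with hn
  set e : Fin n ≃ ι := (Fintype.equivFin ι).symm with he
  have hG' : GSys q C T (fun i : Fin n => y (e i)) := by
    refine ⟨hG.one_le, hG.degT, hG.sizeT, fun i m => hG.size (e i) m, fun m => ?_, fun k => ?_⟩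
    · obtain ⟨d, h2, h3, h4⟩ := hG.den m
      exact ⟨d, h2, h3, fun i j hj => h4 (e i) j hj⟩
    · obtain ⟨g, h2, h3, h4⟩ := hG.der k
      refine ⟨g, h2, h3, fun s hs => ?_⟩
      obtain ⟨G, h5, h6, h7⟩ := h4 s hs
      refine ⟨fun i j => G (e i) (e j), fun i j => h5 _ _, fun i j l => h6 _ _ l, fun i => ?_⟩
      rw [h7, ← e.sum_comp]
  have hEn : (2 * C) ^ E n ≤ (t : ℝ) := by
    refine le_trans (pow_le_pow_right₀ (by linarith) ?_) ht
    exact Finset.single_le_sum (f := E) (fun _ _ => Nat.zero_le _) (Finset.mem_range.2 (by omega))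
  obtain ⟨c, κ, hc, hm⟩ := hE n C T (fun i => y (e i)) (e.symm i₀) t hG' (by simp [h1])
    (hLI.comp e e.injective) hEn hT
  have h2 := li_of_measure hK (fun i : Fin n => ((ev t (y (e i)) : ℝ) : ℂ)) c hc κ (fun a ha A hA hAa => by
    refine (hm a ha A hA hAa).trans (le_of_eq ?_)
    congr 1
    have h3 : ∑ i, (a i : ℂ) * ((ev t (y (e i)) : ℝ) : ℂ) = ((∑ i, (a i : ℝ) * ev t (y (e i)) : ℝ) : ℂ) := by
      push_cast
      rfl
    rw [h3, Complex.norm_real, Real.norm_eq_abs]) (fun i => b (e i)) (fun i => hb _) (by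
    rw [← h0, ← e.sum_comp])
  funext i
  have h3 := congrFun h2 (e.symm i)
  simpa using h3

end Pool.Agent.L5helper52.WK
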