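import Pool.Agent.Y916.AW
import Pool.Agent.L5helper52.WK.Low

/-!
# The greedy choice, several sets of coefficients, over an arbitrary base field

The proofs are those of `Pool.Agent.Y118.HG.Awu` with another base field.
-/

set_option autoImplicit false

open Module
open scoped Pointwise

namespace Pool.Agent.L5helper52.WK

open Pool.Agent.Y916.Hil Pool.Agent.Y916.Gre Pool.Agent.Y916.Low Pool.Agent.Y916.Fld Pool.Agent.Y916.AW

variable {k : Type} [Field k] [Algebra k ℂ]

/-- **The greedy choice, several sets of coefficients.** -/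
theorem greedyU {ι κ : Type*} [DecidableEq ι] [DecidableEq κ] {y : ι → ℂ} {Co : κ → Set ℂ}
    (h0 : ∀ k, (0 : ℂ) ∈ Co k) {δ : ℕ} (q r : ℕ) (adm : ι → Prop)
    (h : ∀ S : Finset ι, S.card < q → ∃ A : Finset ι, A.card ≤ r ∧ (∀ b ∈ A, adm b) ∧ Disjoint A S ∧
      ∃ k, Bad y (Co k) δ A) :
    ∃ (S B : Finset ι) (I : Finset κ), S.card = q ∧ S ⊆ B ∧ B.card ≤ q * r ∧ I.card ≤ q ∧ (∀ b ∈ B, adm b) ∧
      ∀ (K : IntermediateField k ℂ) (V : Submodule K ℂ), V.FG → (1 : ℂ) ∈ V → (∀ k ∈ I, ∀ c ∈ Co k, c ∈ V ^ δ) →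
      ∀ Θ : Finset ι, B ⊆ Θ → ∀ Δ : ℕ,
        finrank K ((V ⊔ Submodule.span K (y '' (Θ : Set ι))) ^ Δ : Submodule K ℂ)
          ≤ δ ^ q * finrank K ((V ⊔ Submodule.span K (y '' ((Θ \ S : Finset ι) : Set ι))) ^ ((2 * δ + 1) ^ q * Δ) :
            Submodule K ℂ) := by
  suffices H : ∀ q' ≤ q, ∃ (S B : Finset ι) (I : Finset κ), S.card = q' ∧ S ⊆ B ∧ B.card ≤ q' * r ∧ I.card ≤ q' ∧
      (∀ b ∈ B, adm b) ∧
      ∀ (K : IntermediateField k ℂ) (V : Submodule K ℂ), V.FG → (1 : ℂ) ∈ V → (∀ k ∈ I, ∀ c ∈ Co k, c ∈ V ^ δ) →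
      ∀ Θ : Finset ι, B ⊆ Θ → ∀ Δ : ℕ,
        finrank K ((V ⊔ Submodule.span K (y '' (Θ : Set ι))) ^ Δ : Submodule K ℂ)
          ≤ δ ^ q' * finrank K ((V ⊔ Submodule.span K (y '' ((Θ \ S : Finset ι) : Set ι))) ^ ((2 * δ + 1) ^ q' * Δ) :
            Submodule K ℂ) from H q le_rfl
  intro q'
  induction q' with
  | zero =>
    intro _
    refine ⟨∅, ∅, ∅, rfl, subset_rfl, by simp, by simp, by simp, ?_⟩
    intro K V _ _ _ Θ _ Δ
    rw [Finset.sdiff_empty, pow_zero, pow_zero, one_mul, one_mul]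
  | succ q' ih =>
    intro hq
    obtain ⟨S, B, I, hS, hSB, hBr, hIr, hBa, hrk⟩ := ih (by omega)
    obtain ⟨A, hAr, hAa, hAS, k, hA⟩ := h S (by omega)
    obtain ⟨A', hA', hbad, s, hs, hmin⟩ := exists_min hA
    have hsS : s ∉ S := Finset.disjoint_left.1 hAS (hA' hs)
    refine ⟨insert s S, A' ∪ B, insert k I, ?_, ?_, ?_, ?_, ?_, ?_⟩
    · rw [Finset.card_insert_of_notMem hsS, hS]
    · exact Finset.insert_subset (Finset.mem_union_left _ hs) (hSB.trans Finset.subset_union_right)
    · have h1 := Finset.card_union_le A' B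
      have h2 := Finset.card_le_card hA'
      nlinarith
    · exact (Finset.card_insert_le _ _).trans (Nat.succ_le_succ hIr)
    · intro b hb
      rcases Finset.mem_union.1 hb with hb | hb
      · exact hAa b (hA' hb)
      · exact hBa b hb
    · intro K V hV h1 hCo Θ hΘ Δ
      refine (hrk K V hV h1 (fun i hi => hCo i (Finset.mem_insert_of_mem hi)) Θ
        (Finset.subset_union_right.trans hΘ) Δ).trans ?_
      set Δ' := (2 * δ + 1) ^ q' * Δ with hΔ'
      set W : Submodule K ℂ := V ⊔ Submodule.span K (y '' ((Θ \ insert s S : Finset ι) : Set ι)) with hW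
      have hWfg : W.FG := fg_aux hV y _
      have hVW : V ≤ W := le_sup_left
      have hsplit : V ⊔ Submodule.span K (y '' ((Θ \ S : Finset ι) : Set ι)) = W ⊔ Submodule.span K {y s} := by
        rw [hW, sup_assoc, ← Submodule.span_union]
        congr 2
        have hsT : s ∈ Θ \ S := Finset.mem_sdiff.2 ⟨hΘ (Finset.mem_union_left _ hs), hsS⟩
        have e : Θ \ S = insert s (Θ \ insert s S) := by
          ext i
          simp only [Finset.mem_sdiff, Finset.mem_insert]
          constructor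
          · rintro ⟨h3, h4⟩
            by_cases h5 : i = s
            · exact Or.inl h5
            · exact Or.inr ⟨h3, fun h6 => h6.elim h5 h4⟩
          · rintro (rfl | ⟨h3, h4⟩)
            · exact Finset.mem_sdiff.1 hsT
            · exact ⟨h3, fun h5 => h4 (Or.inr h5)⟩
        rw [e, Finset.coe_insert, Set.image_insert_eq, Set.insert_eq, Set.union_comm]
      obtain ⟨a, c, ha1, haδ, hc, hca, hsum⟩ := step_eq (y := y) hbad hmin (h0 k) (V := W) (hVW h1)
        (fun c hc => pow_le_pow_left' hVW δ (hCo k (Finset.mem_insert_self k I) c hc)) (by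
          intro i hi
          refine Submodule.mem_sup_right (Submodule.subset_span ⟨i, ?_, rfl⟩)
          rw [Finset.mem_erase] at hi
          rw [Finset.mem_coe, Finset.mem_sdiff, Finset.mem_insert]
          refine ⟨hΘ (Finset.mem_union_left _ hi.2), ?_⟩
          rintro (h3 | h3)
          · exact hi.1 h3
          · exact Finset.disjoint_left.1 hAS (hA' hi.2) h3)
      have hst := alg_step hWfg (hVW h1) (y s) a ha1 c (2 * δ) hc hca hsum Δ'
      rw [hsplit]
      calc δ ^ q' * finrank K ((W ⊔ Submodule.span K {y s}) ^ Δ' : Submodule K ℂ)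
          ≤ δ ^ q' * (δ * finrank K (W ^ ((2 * δ + 1) * Δ') : Submodule K ℂ)) :=
            Nat.mul_le_mul_left _ (hst.trans (Nat.mul_le_mul_right _ haδ))
        _ = δ ^ (q' + 1) * finrank K (W ^ ((2 * δ + 1) ^ (q' + 1) * Δ) : Submodule K ℂ) := by
            rw [hΔ', ← mul_assoc, ← pow_succ, ← mul_assoc (2 * δ + 1), ← pow_succ']

/-- the compositum of finitely many fields of bounded degree -/
theorem compositum {d : ℕ} (I : Finset {K : IntermediateField k ℂ // FiniteDimensional k K ∧ finrank k K ≤ d}) :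
    ∃ L : IntermediateField k ℂ, FiniteDimensional k L ∧ finrank k L ≤ d ^ I.card ∧ ∀ K ∈ I, K.1 ≤ L := by
  classical
  induction I using Finset.induction_on with
  | empty =>
    refine ⟨⊥, inferInstance, ?_, by simp⟩
    rw [IntermediateField.finrank_bot]
    simp
  | insert K I hK ih =>
    obtain ⟨L, h1, h2, h3⟩ := ih
    have h4 := K.2.1
    refine ⟨L ⊔ K.1, inferInstance, ?_, ?_⟩
    · refine (IntermediateField.finrank_sup_le L K.1).trans ?_
      rw [Finset.card_insert_of_notMem hK, pow_succ]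
      exact Nat.mul_le_mul h2 K.2.2
    · intro K' hK'
      rcases Finset.mem_insert.1 hK' with rfl | h
      · exact le_sup_right
      · exact (h3 K' h).trans le_sup_left

/-- powers of spans over a larger field -/
theorem span_pow_field {K L : IntermediateField k ℂ} (hKL : K ≤ L) {s : Set ℂ} {m : ℕ} {c : ℂ}
    (hc : c ∈ (Submodule.span K s) ^ m) : c ∈ (Submodule.span L s) ^ m := by
  rw [Submodule.span_pow] at hc ⊢
  refine Submodule.span_induction (p := fun c _ => c ∈ Submodule.span L (s ^ m)) ?_ ?_ ?_ ?_ hc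
  · intro x hx
    exact Submodule.subset_span hx
  · exact Submodule.zero_mem _
  · intro x y _ _ hx hy
    exact Submodule.add_mem _ hx hy
  · intro k x _ hx
    have : k • x = (⟨(k : ℂ), hKL k.2⟩ : L) • x := rfl
    rw [this]
    exact Submodule.smul_mem _ _ hx

end Pool.Agent.L5helper52.WK
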