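import Pool.Agent.L5helper52.WK.Meas

/-!
# Logarithms of the integers of short windows over simultaneously Liouville fields
-/

set_option autoImplicit false

open Module

namespace Pool.Agent.L5helper52.WK

open Pool.Agent.L5helper52.LL (SL)

theorem rename_unit {q k : ℕ} {R : Type*} [CommRing R] [Algebra R ℂ] (w' : Fin (q + 1) → ℂ) (w : Fin q → ℂ)
    (hw : ∀ j, w' (Fin.succ j) = w j) (P : MvPolynomial (Fin q ⊕ Fin k) R) :
    MvPolynomial.aeval (Sum.elim (fun j => MvPolynomial.C (w' j)) MvPolynomial.X :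
      Fin (q + 1) ⊕ Fin k × Unit → MvPolynomial (Fin k × Unit) ℂ)
      (MvPolynomial.rename (Sum.map Fin.succ (fun i => (i, ()))) P) =
    MvPolynomial.rename (fun i : Fin k => (i, ())) (MvPolynomial.aeval
      (Sum.elim (fun j => MvPolynomial.C (w j)) MvPolynomial.X) P : MvPolynomial (Fin k) ℂ) := by
  rw [MvPolynomial.aeval_rename]
  have h : (MvPolynomial.aeval ((Sum.elim (fun j => MvPolynomial.C (w' j)) MvPolynomial.X :
      Fin (q + 1) ⊕ Fin k × Unit → MvPolynomial (Fin k × Unit) ℂ) ∘ Sum.map Fin.succ (fun i => (i, ()))) :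
        MvPolynomial (Fin q ⊕ Fin k) R →ₐ[R] MvPolynomial (Fin k × Unit) ℂ)
      = (((MvPolynomial.rename (fun i : Fin k => (i, ())) : MvPolynomial (Fin k) ℂ →ₐ[ℂ]
        MvPolynomial (Fin k × Unit) ℂ)).restrictScalars R).comp
        (MvPolynomial.aeval (Sum.elim (fun j => MvPolynomial.C (w j)) MvPolynomial.X)) := by
    refine MvPolynomial.algHom_ext fun i => ?_
    rcases i with j | i
    · simp [hw]
    · simp
  exact DFunLike.congr_fun h P

/-- **Windows.** -/
theorem win_log (q k D δ : ℕ) : ∃ E : ℕ, ∀ N H : ℕ, (H + 2) ^ E ≤ N → ∀ K : Subfield ℂ, SL K → ∀ w : Fin q → ℂ,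
    ∃ S : Finset ℕ, S.card ≤ q + 1 ∧
    ∀ p : Fin k → ℕ, Function.Injective p → (∀ i, N < p i ∧ p i ≤ N + H ∧ p i ∉ S) →
    ∀ L : IntermediateField K ℂ, FiniteDimensional K L → finrank K L ≤ D →
    ∀ P : MvPolynomial (Fin q ⊕ Fin k) L, P.totalDegree ≤ δ →
      MvPolynomial.aeval (Sum.elim w fun i => ((Real.log (p i) : ℝ) : ℂ)) P = 0 →
      MvPolynomial.aeval (Sum.elim (fun j => MvPolynomial.C (w j)) MvPolynomial.X) P =
        (0 : MvPolynomial (Fin k) ℂ) := by
  classical
  obtain ⟨E, hE⟩ := awK {K | SL K} vlog inp_log k D δ (q + 1)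
  refine ⟨E, fun N H hN K hK w => ?_⟩
  set t : ℕ := N + H + 1 with ht
  set w' : Fin (q + 1) → ℂ := Fin.cons ((Real.log t : ℝ) : ℂ) w with hw'
  have htE : (H + 2) ^ E ≤ t := hN.trans (by omega)
  have ht0 : (0 : ℝ) < t := by exact_mod_cast (show 0 < t by omega)
  obtain ⟨S, hS, h⟩ := hE H t htE K hK w'
  refine ⟨S.image fun g => t - g, Finset.card_image_le.trans hS, fun p hp hpS L hLf hLD P hP hP0 => ?_⟩
  have hg : ∀ i, 1 ≤ t - p i ∧ t - p i ≤ H ∧ t - p i ∉ S := by
    intro i
    obtain ⟨h1, h2, h3⟩ := hpS i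
    refine ⟨by omega, by omega, fun h4 => h3 ?_⟩
    refine Finset.mem_image.2 ⟨t - p i, h4, by omega⟩
  have hinj : Function.Injective fun i => t - p i := by
    intro i j hij
    have h1 : t - p i = t - p j := hij
    have h2 := (hpS i).2.1
    have h3 := (hpS j).2.1
    exact hp (by omega)
  have hcon := h (fun i => t - p i) hinj hg L hLf hLD (fun x => ((Real.log (p x.1) : ℝ) : ℂ)) (by
    rintro ⟨i, u⟩
    refine ⟨1, one_ne_zero, ?_⟩
    have h1 : (0 : ℝ) < p i := by
      have := (hpS i).1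
      exact_mod_cast (show 0 < p i by omega)
    have h2 : ((Real.log (p i) : ℝ) : ℂ) - ((1 : L) : ℂ) * vlog t (t - p i) u = w' 0 := by
      have h3 : ((t - p i : ℕ) : ℝ) = t - p i := by
        rw [Nat.cast_sub]
        have := (hpS i).2.1
        omega
      have h4 : Real.log (p i) = Real.log (1 - ((t - p i : ℕ) : ℝ) / t) + Real.log t := by
        rw [h3]
        have h5 : (1 : ℝ) - (t - p i) / t = p i / t := by
          field_simp
          ring
        rw [h5, Real.log_div h1.ne' ht0.ne']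
        ring
      show ((Real.log (p i) : ℝ) : ℂ) - ((1 : L) : ℂ) * ((Real.log (1 - ((t - p i : ℕ) : ℝ) / t) : ℝ) : ℂ) = _
      rw [h4, hw', Fin.cons_zero]
      push_cast
      ring
    rw [h2]
    exact Submodule.subset_span (Set.mem_insert_of_mem _ ⟨0, rfl⟩))
    (MvPolynomial.rename (Sum.map Fin.succ (fun i => (i, ()))) P)
    ((MvPolynomial.totalDegree_rename_le _ _).trans hP) (by
      rw [MvPolynomial.aeval_rename, ← hP0]
      congr 2
      funext x
      rcases x with x | x
      · simp [hw']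
      · simp)
  rw [rename_unit w' w (fun j => by rw [hw', Fin.cons_succ])] at hcon
  have hinj2 : Function.Injective (fun i : Fin k => (i, ())) := fun i j hij => (Prod.mk.inj hij).1
  exact MvPolynomial.rename_injective _ hinj2 (hcon.trans (map_zero _).symm)

end Pool.Agent.L5helper52.WK
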